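import Pool.Agent.MWI.StmtsE

set_option autoImplicit false

namespace Pool.Agent.MWI.H42

open Pool.Agent.Helper14_MV Pool.Agent.Helper2_MV Pool.Agent.MWF

theorem rtr {β : FIC} {a b c : List ℕ} (h : RR β a b) (h' : RR β b c) : RR β a c := β.trans h h'

theorem inc_iff {β : FIC} {P Q : List ℕ} {m : ℕ} {v v' : List ℕ} (h : RR β v v') :
    Inc β P Q m v ↔ Inc β P Q m v' := by
  constructor
  · rintro ⟨a, b, hab⟩
    exact ⟨a, b, rtr ((h.symm).append (RR.refl _)) hab⟩
  · rintro ⟨a, b, hab⟩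
    exact ⟨a, b, rtr (h.append (RR.refl _)) hab⟩

theorem vin : VinStmt := by
  intro β H P Q m s e w w' hS hR
  refine ⟨?_, ?_, ?_, ?_⟩
  · intro c hc h3
    apply hS.nam c _ h3
    by_contra hcw
    exact (RR.content H hR hcw) hc
  · exact rtr (hR.symm.filter nz) hS.skl
  · intro j hj
    exact rtr (hR.symm.filter _) (hS.one j hj)
  · intro j hj k hk
    rw [← inc_iff (hR.sub (pj j k))]
    exact hS.cov j hj k hk

end Pool.Agent.MWI.H42
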