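import Pool.Agent.MWI.StmtsT
import Pool.Agent.MWI.StmtsE

set_option autoImplicit false

namespace Pool.Agent.MWI.H42

open Pool.Agent.Helper14_MV Pool.Agent.Helper2_MV Pool.Agent.MWF

theorem ny_pl (P : List ℕ) : (pl P).filter ny = pl P := by
  rw [List.filter_eq_self]
  intro c hc
  unfold pl at hc
  rw [List.mem_flatMap] at hc
  obtain ⟨i, _, h⟩ := hc
  unfold ny
  simp only [List.mem_cons, List.not_mem_nil, or_false] at h
  rcases h with h | h <;> simp [h]

theorem ny_pr (P : List ℕ) : (pr P).filter ny = pr P := by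
  rw [List.filter_eq_self]
  intro c hc
  unfold pr at hc
  rw [List.mem_flatMap] at hc
  obtain ⟨i, _, h⟩ := hc
  unfold ny
  simp only [List.mem_cons, List.not_mem_nil, or_false] at h
  rcases h with h | h <;> simp [h]

theorem ny_zz (P : List ℕ) : (zz P).filter ny = zz P := by
  rw [List.filter_eq_self]
  intro c hc
  unfold zz at hc
  rw [List.mem_map] at hc
  obtain ⟨i, _, h⟩ := hc
  unfold ny
  simp [← h]

theorem wdc (h1 : SkeStmt) (h2 : DcmStmt) : WdcStmt := by
  intro β H P Q m hP w hw
  have e1 : (ww P Q (List.range m)).filter ny = pl P ++ (zz (List.range m) ++ pr Q) := by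
    unfold ww
    rw [List.filter_append, ny_pl, List.filter_cons_of_neg (by simp [ny]), List.filter_append,
      ny_zz, List.filter_cons_of_neg (by simp [ny]), ny_pr]
  have e2 := hw.filter ny
  rw [e1] at e2
  obtain ⟨h, hh, e3⟩ := h1 β H P Q (List.range m) (w.filter ny) List.nodup_range hP e2
  obtain ⟨a, b, M, e4, e5⟩ := h2 P Q h w m hP e3
  exact ⟨a, b, M, h, hh, e4, e5⟩

end Pool.Agent.MWI.H42
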